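import Pool.Agent.Q62.PE.Iff

open Pool.Agent.Q62.PE

namespace Pool.Agent.Results.MP_e9346b_an.ThresholdGroundState

theorem exponent {N : ℕ} (hN : 3 ≤ N) {p : ℝ} (h : p < tw N - 1) :
    (p + 1) * ((N : ℝ) - 2) < 2 * N := by
  have h3 : (3 : ℝ) ≤ N := by exact_mod_cast hN
  have h1 : p + 1 < 2 * N / ((N : ℝ) - 2) := by
    have : tw N = 2 * N / ((N : ℝ) - 2) := rfl
    linarith
  rwa [lt_div_iff₀ (by linarith)] at h1

/-- For all `N ≥ 3`, `1 < p < 2* - 1`, `μ > μ₀` and `ν > 0` the system with `λ = λ_{μ,ν}` has a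
ground state solution. -/
theorem result (N : ℕ) (hN : 3 ≤ N) (p μ ν : ℝ) (hp : 1 < p) (hp2 : p < tw N - 1)
    (hμ : mu0 N p < μ) (hν : 0 < ν) :
    0 < lamStar N p μ ν ∧ lamStar N p μ ν < Real.sqrt (μ * ν) ∧
      ∃ U : Pair N, IsGround p μ ν (lamStar N p μ ν) U := by
  obtain ⟨h1, h2, h3⟩ := threshold hN hp (exponent hN hp2) hμ hν
  exact ⟨(low_pos hN hp (exponent hN hp2) hμ hν).1.trans_le h1, h2, h3⟩

end Pool.Agent.Results.MP_e9346b_an.ThresholdGroundState
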